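import Mathlib

/-!
# The family `V₁, V₂ - V₁, …, Vₖ - V₁, -T` of the GI/GI/k queue need not be associated

For every `k ≥ 2` take `S = 1` and let `T` be uniform on two points of `(1 / k, 1 / (k - 1)]`. In
the stationary regime `V = (1 - (T₁ + … + T_{k-1}), …, 1 - T₁, 1)`, where `T₁, T₂, …` are the last
interarrival times, so that `Vₖ - V₁ = 1 - V₁` is a decreasing function of `V₁`.
-/

open MeasureTheory ProbabilityTheory Filter Topology
open scoped ENNReal

namespace Pool.Agent.Results.MP_d464c7_pr.NotAssociated

/-- The increasing rearrangement of a vector. -/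
noncomputable def increasing {k : ℕ} (v : Fin k → ℝ) : Fin k → ℝ := v ∘ Tuple.sort v

/-- The vector `V`: the service time `s` is added to the least workload, and the result is put in
nondecreasing order. -/
noncomputable def post {k : ℕ} (w : Fin k → ℝ) (s : ℝ) : Fin k → ℝ :=
  increasing (fun i => w i + (if (i : ℕ) = 0 then s else 0))

/-- The workload vector `((V₁ - t)₊, …, (Vₖ - t)₊)` seen by the next customer. -/
noncomputable def kwStep {k : ℕ} (w : Fin k → ℝ) (s t : ℝ) : Fin k → ℝ :=
  fun i => max (post w s i - t) 0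

/-- The law of the workload vector after one customer, if the present one has law `π`, the service
time has law `μS` and the interarrival time has law `μT` (all independent). -/
noncomputable def nextLaw {k : ℕ} (μS μT : Measure ℝ) (π : Measure (Fin k → ℝ)) :
    Measure (Fin k → ℝ) :=
  (π.prod (μS.prod μT)).map (fun p => kwStep p.1 p.2.1 p.2.2)

/-- The law of the workload vector seen by customer `n` if the system is empty at the start. -/
noncomputable def lawFromEmpty (k : ℕ) (μS μT : Measure ℝ) : ℕ → Measure (Fin k → ℝ)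
  | 0 => Measure.dirac 0
  | n + 1 => nextLaw μS μT (lawFromEmpty k μS μT n)

/-- The family `V₁, V₂ - V₁, …, Vₖ - V₁, -T`. -/
noncomputable def family {k : ℕ} [NeZero k] (w : Fin k → ℝ) (s t : ℝ) : Fin (k + 1) → ℝ :=
  Fin.snoc (fun i : Fin k => if i = 0 then post w s 0 else post w s i - post w s 0) (-t)

/-- The random vector `X` is associated under `P`. -/
def Associated {Ω : Type} [MeasurableSpace Ω] {m : ℕ} (P : Measure Ω) (X : Ω → Fin m → ℝ) : Prop :=
  ∀ f g : (Fin m → ℝ) → ℝ, Monotone f → Monotone g → Measurable f → Measurable g →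
    (∃ C, ∀ x, |f x| ≤ C) → (∃ C, ∀ x, |g x| ≤ C) →
    0 ≤ (∫ ω, f (X ω) * g (X ω) ∂P) - (∫ ω, f (X ω) ∂P) * ∫ ω, g (X ω) ∂P

/-- The workload vector seen by a customer, as a function of the last `m + 1` interarrival times
`τ 0, τ 1, …` (the most recent one first), in the system with `m + 2` servers and service times
equal to `1`. -/
noncomputable def wl {m : ℕ} (τ : Fin (m + 1) → ℝ) (j : Fin (m + 2)) : ℝ :=
  if (j : ℕ) = 0 then 0 else
    max (1 - ∑ i : Fin (m + 1), if (i : ℕ) + j < m + 2 then τ i else 0) 0

/-- The vector `V` as a function of the last `m + 1` interarrival times. -/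
noncomputable def vl {m : ℕ} (τ : Fin (m + 1) → ℝ) (j : Fin (m + 2)) : ℝ :=
  max (1 - ∑ i : Fin (m + 1), if (i : ℕ) + j < m + 1 then τ i else 0) 0

lemma vl_mono {m : ℕ} (τ : Fin (m + 1) → ℝ) (hτ : ∀ i, 0 ≤ τ i) : Monotone (vl τ) := by
  intro j j' h
  unfold vl
  have h' : (j : ℕ) ≤ j' := h
  gcongr with i _
  split_ifs with h1 h2 h2
  · exact le_rfl
  · omega
  · exact hτ i
  · exact le_rfl

/-- If a vector is a permutation of a monotone vector, this is its increasing rearrangement. -/
lemma increasing_eq {k : ℕ} (v b : Fin k → ℝ) (hb : Monotone b) (σ : Equiv.Perm (Fin k))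
    (h : v = b ∘ σ) : increasing v = b := by
  unfold increasing
  have h1 : Monotone (v ∘ Tuple.sort v) := Tuple.monotone_sort v
  have h2 : v ∘ Tuple.sort v = b ∘ (Tuple.sort v).trans σ := by
    rw [h]
    rfl
  rw [h2] at h1 ⊢
  have h3 := Tuple.unique_monotone (f := b) (σ := (Tuple.sort v).trans σ) (τ := Equiv.refl _) h1
    (by simpa using hb)
  simpa using h3

lemma post_wl {m : ℕ} (τ : Fin (m + 1) → ℝ) (hτ : ∀ i, 0 ≤ τ i) : post (wl τ) 1 = vl τ := by
  unfold post
  refine increasing_eq _ _ (vl_mono τ hτ) (finRotate (m + 2)).symm ?_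
  funext j
  simp only [Function.comp]
  obtain ⟨i, rfl⟩ := (finRotate (m + 2)).surjective j
  rw [Equiv.symm_apply_apply]
  by_cases hi : i = Fin.last (m + 1)
  · subst hi
    rw [finRotate_last]
    have h0 : ∑ x : Fin (m + 1), (if (x : ℕ) + (m + 1) < m + 1 then τ x else 0) = 0 := by
      refine Finset.sum_eq_zero fun x _ => ?_
      rw [if_neg (by omega)]
    simp only [wl, vl, Fin.val_zero, if_true, Fin.val_last, h0]
    simp
  · have hi' : (i : ℕ) < m + 1 := by
      have := i.2
      have h2 : (i : ℕ) ≠ m + 1 := fun h => hi (Fin.ext h)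
      omega
    have h3 : ((finRotate (m + 2) i : Fin (m + 2)) : ℕ) = i + 1 := coe_finRotate_of_ne_last hi
    simp only [wl, vl, h3]
    simp only [Nat.add_eq_zero_iff, one_ne_zero, and_false, if_false, add_zero]
    congr 3
    funext x
    congr 1
    simp only [eq_iff_iff]
    omega

/-- The last `m + 1` interarrival times after one more customer. -/
def push {m : ℕ} (t : ℝ) (τ : Fin (m + 1) → ℝ) : Fin (m + 1) → ℝ :=
  Fin.cons t (fun i : Fin m => τ i.castSucc)

lemma kwStep_wl {m : ℕ} (τ : Fin (m + 1) → ℝ) (t : ℝ) (hτ : ∀ i, 1 ≤ (m + 2 : ℝ) * τ i)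
    (ht : 1 ≤ (m + 2 : ℝ) * t) : kwStep (wl τ) 1 t = wl (push t τ) := by
  have hm : (0 : ℝ) < m + 2 := by positivity
  have hτ0 : ∀ i, 0 ≤ τ i := fun i => by
    by_contra h
    have := hτ i
    nlinarith
  have ht0 : 0 ≤ t := by
    by_contra h
    nlinarith
  funext j
  unfold kwStep
  rw [post_wl τ hτ0]
  by_cases hj : (j : ℕ) = 0
  · simp only [wl, hj, if_true]
    apply max_eq_right
    have hs : ∑ i : Fin (m + 1), (if (i : ℕ) + j < m + 1 then τ i else 0) = ∑ i, τ i := by
      refine Finset.sum_congr rfl fun i _ => ?_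
      rw [if_pos (by omega)]
    simp only [vl, hs]
    have h1 : 1 ≤ t + ∑ i, τ i := by
      have h2 : (m + 2 : ℝ) * ∑ i, τ i ≥ ∑ i : Fin (m + 1), (1 : ℝ) := by
        rw [Finset.mul_sum]
        exact Finset.sum_le_sum fun i _ => hτ i
      simp only [Finset.sum_const, Finset.card_univ, Fintype.card_fin, nsmul_eq_mul, mul_one] at h2
      push_cast at h2
      by_contra h
      nlinarith
    have h2 : max (1 - ∑ i, τ i) 0 ≤ t := by
      apply max_le
      · linarith
      · exact ht0
    linarith
  · have h1 : ∑ i : Fin (m + 1), (if (i : ℕ) + j < m + 2 then push t τ i else 0) =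
        t + ∑ i : Fin (m + 1), (if (i : ℕ) + j < m + 1 then τ i else 0) := by
      rw [Fin.sum_univ_succ, Fin.sum_univ_castSucc (n := m)]
      simp only [push, Fin.cons_zero, Fin.cons_succ, Fin.val_zero, Fin.val_succ, Fin.val_castSucc,
        Fin.val_last]
      rw [if_pos (by omega), if_neg (by omega), add_zero]
      congr 1
      refine Finset.sum_congr rfl fun i _ => ?_
      congr 1
      simp only [eq_iff_iff]
      omega
    simp only [wl, hj, if_false, h1, vl]
    rcases le_total 0 (1 - ∑ i : Fin (m + 1), (if (i : ℕ) + j < m + 1 then τ i else 0)) with h | h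
    · rw [max_eq_left h]
      congr 1
      ring
    · rw [max_eq_right h, max_eq_right (by linarith), max_eq_right (by linarith)]

/-- The law of the last interarrival times after one more customer. -/
lemma map_push {m : ℕ} (μ : Fin (m + 1) → Measure ℝ) [∀ i, IsProbabilityMeasure (μ i)]
    (ν : Measure ℝ) [IsProbabilityMeasure ν] :
    ((Measure.pi μ).prod ν).map (fun p => push p.2 p.1) =
      Measure.pi (Fin.cons ν (fun i : Fin m => μ i.castSucc) : Fin (m + 1) → Measure ℝ) := by
  have hprob : ∀ i, IsProbabilityMeasure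
      ((Fin.cons ν (fun i : Fin m => μ i.castSucc) : Fin (m + 1) → Measure ℝ) i) := by
    intro i
    refine Fin.cases ?_ (fun i => ?_) i
    · simpa
    · simp only [Fin.cons_succ]
      infer_instance
  have hmeas : Measurable (fun p : (Fin (m + 1) → ℝ) × ℝ => push p.2 p.1) := by
    rw [measurable_pi_iff]
    intro i
    refine Fin.cases ?_ (fun i => ?_) i
    · simpa [push] using measurable_snd
    · simp only [push, Fin.cons_succ]
      exact (measurable_pi_apply _).comp measurable_fst
  symm
  apply Measure.pi_eq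
  intro s hs
  rw [Measure.map_apply hmeas (MeasurableSet.univ_pi hs)]
  have h1 : (fun p : (Fin (m + 1) → ℝ) × ℝ => push p.2 p.1) ⁻¹' (Set.univ.pi s) =
      (Set.univ.pi (Fin.snoc (fun i : Fin m => s i.succ) Set.univ : Fin (m + 1) → Set ℝ)) ×ˢ
        s 0 := by
    ext p
    simp only [Set.mem_preimage, Set.mem_pi, Set.mem_univ, true_implies, Set.mem_prod]
    rw [Fin.forall_fin_succ, Fin.forall_fin_succ']
    simp only [push, Fin.cons_zero, Fin.cons_succ, Fin.snoc_castSucc, Fin.snoc_last, Set.mem_univ,
      and_true]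
    exact and_comm
  rw [h1, Measure.prod_prod, Measure.pi_pi, Fin.prod_univ_castSucc, Fin.prod_univ_succ]
  simp only [Fin.snoc_castSucc, Fin.snoc_last, Fin.cons_zero, Fin.cons_succ, measure_univ, mul_one]
  rw [mul_comm]

/-! ### Measurability -/

lemma card_increasing {k : ℕ} (v : Fin k → ℝ) (p : ℝ → Prop) [DecidablePred p] :
    (Finset.univ.filter (fun i => p (increasing v i))).card =
      (Finset.univ.filter (fun i => p (v i))).card := by
  apply Finset.card_bij (fun i _ => Tuple.sort v i)
  · intro i hi
    rw [Finset.mem_filter] at hi ⊢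
    exact ⟨Finset.mem_univ _, hi.2⟩
  · intro a _ b _ h
    exact (Tuple.sort v).injective h
  · intro b hb
    refine ⟨(Tuple.sort v).symm b, ?_, by simp⟩
    rw [Finset.mem_filter] at hb ⊢
    refine ⟨Finset.mem_univ _, ?_⟩
    unfold increasing
    simpa using hb.2

lemma increasing_le_iff {k : ℕ} (v : Fin k → ℝ) (j : Fin k) (a : ℝ) :
    increasing v j ≤ a ↔ (j : ℕ) < (Finset.univ.filter (fun i => v i ≤ a)).card := by
  rw [← card_increasing v (fun x => x ≤ a)]
  exact (Tuple.lt_card_le_iff_apply_le_of_monotone (Tuple.monotone_sort v)).symm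

lemma measurable_increasing {k : ℕ} : Measurable (increasing : (Fin k → ℝ) → (Fin k → ℝ)) := by
  rw [measurable_pi_iff]
  intro j
  apply measurable_of_Iic
  intro a
  have h0 : Measurable
      (fun v : Fin k → ℝ => (Finset.univ.filter (fun i => v i ≤ a)).card) := by
    simp_rw [Finset.card_filter]
    apply Finset.measurable_sum
    intro i _
    apply Measurable.ite _ measurable_const measurable_const
    exact measurableSet_le (measurable_pi_apply i) measurable_const
  have : (fun v : Fin k → ℝ => increasing v j) ⁻¹' Set.Iic a =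
      (fun v : Fin k → ℝ => (Finset.univ.filter (fun i => v i ≤ a)).card) ⁻¹' Set.Ioi (j : ℕ) := by
    ext v
    simp only [Set.mem_preimage, Set.mem_Iic, Set.mem_Ioi]
    exact increasing_le_iff v j a
  rw [this]
  exact h0 measurableSet_Ioi

lemma measurable_post {k : ℕ} :
    Measurable (fun p : (Fin k → ℝ) × ℝ × ℝ => post p.1 p.2.1) := by
  unfold post
  apply measurable_increasing.comp
  rw [measurable_pi_iff]
  intro i
  apply Measurable.add ((measurable_pi_apply i).comp measurable_fst)
  split_ifs
  · exact measurable_fst.comp measurable_snd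
  · exact measurable_const

lemma measurable_kwStep {k : ℕ} :
    Measurable (fun p : (Fin k → ℝ) × ℝ × ℝ => kwStep p.1 p.2.1 p.2.2) := by
  unfold kwStep
  rw [measurable_pi_iff]
  intro i
  apply Measurable.max _ measurable_const
  exact ((measurable_pi_apply i).comp measurable_post).sub (measurable_snd.comp measurable_snd)

lemma measurable_wl {m : ℕ} : Measurable (wl : (Fin (m + 1) → ℝ) → Fin (m + 2) → ℝ) := by
  rw [measurable_pi_iff]
  intro j
  unfold wl
  split_ifs
  · exact measurable_const
  · apply Measurable.max _ measurable_const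
    apply Measurable.const_sub
    apply Finset.measurable_sum
    intro i _
    split_ifs
    · exact measurable_pi_apply i
    · exact measurable_const

lemma measurable_push {m : ℕ} :
    Measurable (fun p : (Fin (m + 1) → ℝ) × ℝ => push p.2 p.1) := by
  rw [measurable_pi_iff]
  intro i
  refine Fin.cases ?_ (fun i => ?_) i
  · simpa [push] using measurable_snd
  · simp only [push, Fin.cons_succ]
    exact (measurable_pi_apply _).comp measurable_fst

/-! ### The laws -/

/-- The two points. -/
noncomputable def pa (m : ℕ) : ℝ := 2 / (2 * m + 3)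

/-- The two points. -/
noncomputable def pb (m : ℕ) : ℝ := 1 / (m + 1)

/-- The law of the interarrival times: uniform on two points. -/
noncomputable def nu (m : ℕ) : Measure ℝ :=
  (1 / 2 : ℝ≥0∞) • Measure.dirac (pa m) + (1 / 2 : ℝ≥0∞) • Measure.dirac (pb m)

instance (m : ℕ) : IsProbabilityMeasure (nu m) := by
  constructor
  simp only [nu, Measure.add_apply, Measure.smul_apply, measure_univ, smul_eq_mul, mul_one]
  exact ENNReal.add_halves 1

/-- Interarrival times of the good size. -/
def Good (m : ℕ) (μ : Measure ℝ) : Prop := ∀ᵐ t ∂μ, 1 ≤ (m + 2 : ℝ) * t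

lemma good_pa (m : ℕ) : 1 ≤ (m + 2 : ℝ) * pa m := by
  unfold pa
  rw [mul_div_assoc', le_div_iff₀ (by positivity)]
  linarith

lemma good_pb (m : ℕ) : 1 ≤ (m + 2 : ℝ) * pb m := by
  unfold pb
  rw [mul_div_assoc', le_div_iff₀ (by positivity)]
  linarith

lemma pa_lt_pb (m : ℕ) : pa m < pb m := by
  unfold pa pb
  rw [div_lt_div_iff₀ (by positivity) (by positivity)]
  linarith

lemma good_nu (m : ℕ) : Good m (nu m) := by
  unfold Good nu
  rw [ae_add_measure_iff]
  constructor
  · apply Measure.ae_smul_measure
    rw [ae_dirac_iff (measurableSet_le measurable_const (by fun_prop))]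
    exact good_pa m
  · apply Measure.ae_smul_measure
    rw [ae_dirac_iff (measurableSet_le measurable_const (by fun_prop))]
    exact good_pb m

lemma nextLaw_wl {m : ℕ} (μ : Fin (m + 1) → Measure ℝ) [∀ i, IsProbabilityMeasure (μ i)]
    (hμ : ∀ i, Good m (μ i)) (ν : Measure ℝ) [IsProbabilityMeasure ν] (hν : Good m ν) :
    nextLaw (Measure.dirac 1) ν ((Measure.pi μ).map wl) =
      (Measure.pi (Fin.cons ν (fun i : Fin m => μ i.castSucc) :
        Fin (m + 1) → Measure ℝ)).map wl := by
  have h1 : ((Measure.pi μ).map wl).prod ((Measure.dirac (1 : ℝ)).prod ν) =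
      ((Measure.pi μ).prod ν).map (fun p => (wl p.1, (1 : ℝ), p.2)) := by
    rw [Measure.dirac_prod, Measure.map_prod_map _ _ measurable_wl measurable_prodMk_left]
    rfl
  have hm : Measurable (fun p : (Fin (m + 1) → ℝ) × ℝ => (wl p.1, (1 : ℝ), p.2)) :=
    (measurable_wl.comp measurable_fst).prodMk (measurable_const.prodMk measurable_snd)
  rw [← map_push μ ν, Measure.map_map measurable_wl measurable_push]
  unfold nextLaw
  rw [h1, Measure.map_map measurable_kwStep hm]
  apply Measure.map_congr
  have h2 : ∀ᵐ p ∂((Measure.pi μ).prod ν), (∀ i, 1 ≤ (m + 2 : ℝ) * p.1 i) ∧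
      1 ≤ (m + 2 : ℝ) * p.2 := by
    have h3 : ∀ᵐ τ ∂(Measure.pi μ), ∀ i, 1 ≤ (m + 2 : ℝ) * τ i := by
      rw [ae_all_iff]
      intro i
      exact (Measure.quasiMeasurePreserving_eval μ i).ae (hμ i)
    have h4 := (Measure.quasiMeasurePreserving_fst (μ := Measure.pi μ) (ν := ν)).ae h3
    have h5 := (Measure.quasiMeasurePreserving_snd (μ := Measure.pi μ) (ν := ν)).ae hν
    filter_upwards [h4, h5] with p hp hp'
    exact ⟨hp, hp'⟩
  filter_upwards [h2] with p hp
  exact kwStep_wl p.1 p.2 hp.1 hp.2

lemma good_dirac (m : ℕ) : Good m (Measure.dirac (1 : ℝ)) := by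
  unfold Good
  rw [ae_dirac_iff (measurableSet_le measurable_const (by fun_prop))]
  have : (0 : ℝ) ≤ m := Nat.cast_nonneg m
  linarith

/-- The laws of the last interarrival times after `n` customers (initially all equal to `1`). -/
noncomputable def mus (m n : ℕ) (i : Fin (m + 1)) : Measure ℝ :=
  if (i : ℕ) < n then nu m else Measure.dirac 1

instance (m n : ℕ) (i : Fin (m + 1)) : IsProbabilityMeasure (mus m n i) := by
  unfold mus
  split_ifs <;> infer_instance

lemma good_mus (m n : ℕ) (i : Fin (m + 1)) : Good m (mus m n i) := by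
  unfold mus
  split_ifs
  · exact good_nu m
  · exact good_dirac m

lemma mus_succ (m n : ℕ) :
    (Fin.cons (nu m) (fun i : Fin m => mus m n i.castSucc) : Fin (m + 1) → Measure ℝ) =
      mus m (n + 1) := by
  funext i
  refine Fin.cases ?_ (fun i => ?_) i
  · simp [mus]
  · simp [mus]

lemma lawFromEmpty_eq (m n : ℕ) :
    lawFromEmpty (m + 2) (Measure.dirac 1) (nu m) n = (Measure.pi (mus m n)).map wl := by
  induction n with
  | zero =>
    have h1 : Measure.pi (mus m 0) = Measure.dirac (fun _ => (1 : ℝ)) := by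
      apply Measure.pi_eq
      intro s hs
      rw [Measure.dirac_apply' _ (MeasurableSet.univ_pi hs)]
      simp only [mus, Nat.not_lt_zero, if_false]
      simp_rw [Measure.dirac_apply' _ (hs _)]
      by_cases h : ∀ i, (1 : ℝ) ∈ s i
      · rw [Set.indicator_of_mem (by simpa [Set.mem_pi] using h)]
        simp [h]
      · rw [Set.indicator_of_notMem (by simpa [Set.mem_pi] using h)]
        push Not at h
        obtain ⟨i, hi⟩ := h
        symm
        apply Finset.prod_eq_zero (Finset.mem_univ i)
        rw [Set.indicator_of_notMem hi]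
    rw [h1, Measure.map_dirac' measurable_wl]
    show Measure.dirac 0 = _
    congr 1
    funext j
    unfold wl
    split_ifs with hj
    · rfl
    · symm
      apply max_eq_right
      have h2 : (1 : ℝ) ≤ ∑ i : Fin (m + 1), if (i : ℕ) + j < m + 2 then (1 : ℝ) else 0 := by
        have h3 : (if ((0 : Fin (m + 1)) : ℕ) + j < m + 2 then (1 : ℝ) else 0) ≤
            ∑ i : Fin (m + 1), if (i : ℕ) + j < m + 2 then (1 : ℝ) else 0 :=
          Finset.single_le_sum (f := fun i : Fin (m + 1) =>
            if (i : ℕ) + j < m + 2 then (1 : ℝ) else 0)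
            (fun i _ => by split_ifs <;> norm_num) (Finset.mem_univ 0)
        rw [if_pos (by simp)] at h3
        exact h3
      linarith
  | succ n ih =>
    show nextLaw _ _ (lawFromEmpty (m + 2) (Measure.dirac 1) (nu m) n) = _
    rw [ih, nextLaw_wl (mus m n) (good_mus m n) (nu m) (good_nu m), mus_succ]

/-- The stationary law of the workload vector. -/
noncomputable def stat (m : ℕ) : Measure (Fin (m + 2) → ℝ) :=
  (Measure.pi (fun _ : Fin (m + 1) => nu m)).map wl

lemma mus_const (m n : ℕ) (hn : m + 1 ≤ n) : mus m n = fun _ => nu m := by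
  funext i
  unfold mus
  rw [if_pos (by omega)]

lemma stat_stationary (m : ℕ) : nextLaw (Measure.dirac 1) (nu m) (stat m) = stat m := by
  unfold stat
  rw [nextLaw_wl (fun _ => nu m) (fun _ => good_nu m) (nu m) (good_nu m)]
  congr 2
  funext i
  refine Fin.cases ?_ (fun i => ?_) i
  · simp
  · simp

lemma nu_pa (m : ℕ) : (1 / 2 : ℝ≥0∞) ≤ nu m {pa m} := by
  simp [nu]

lemma nu_pb (m : ℕ) : (1 / 2 : ℝ≥0∞) ≤ nu m {pb m} := by
  simp [nu]

/-- The joint law of the workloads, the service time and the interarrival time. -/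
lemma joint_law (m : ℕ) : (stat m).prod ((Measure.dirac (1 : ℝ)).prod (nu m)) =
    ((Measure.pi (fun _ : Fin (m + 1) => nu m)).prod (nu m)).map
      (fun p => (wl p.1, (1 : ℝ), p.2)) := by
  unfold stat
  rw [Measure.dirac_prod, Measure.map_prod_map _ _ measurable_wl measurable_prodMk_left]
  rfl

lemma measurable_emb (m : ℕ) :
    Measurable (fun p : (Fin (m + 1) → ℝ) × ℝ => (wl p.1, (1 : ℝ), p.2)) :=
  (measurable_wl.comp measurable_fst).prodMk (measurable_const.prodMk measurable_snd)

lemma measurable_family (k : ℕ) [NeZero k] :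
    Measurable (fun p : (Fin k → ℝ) × ℝ × ℝ => family p.1 p.2.1 p.2.2) := by
  rw [measurable_pi_iff]
  intro i
  refine Fin.lastCases ?_ (fun i => ?_) i
  · simp only [family, Fin.snoc_last]
    exact (measurable_snd.comp measurable_snd).neg
  · simp only [family, Fin.snoc_castSucc]
    split_ifs
    · exact (measurable_pi_apply _).comp measurable_post
    · exact ((measurable_pi_apply _).comp measurable_post).sub
        ((measurable_pi_apply _).comp measurable_post)

lemma family_first {m : ℕ} (τ : Fin (m + 1) → ℝ) (hτ : ∀ i, 0 ≤ τ i) (t : ℝ) :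
    family (wl τ) 1 t 0 = max (1 - ∑ i, τ i) 0 := by
  have h0 : (0 : Fin (m + 3)) = Fin.castSucc (0 : Fin (m + 2)) := rfl
  rw [h0]
  simp only [family, Fin.snoc_castSucc, if_true, post_wl τ hτ, vl, Fin.val_zero, add_zero]
  congr 2
  refine Finset.sum_congr rfl fun i _ => ?_
  rw [if_pos (by omega)]

lemma family_last {m : ℕ} (τ : Fin (m + 1) → ℝ) (hτ : ∀ i, 0 ≤ τ i) (t : ℝ) :
    family (wl τ) 1 t (Fin.castSucc (Fin.last (m + 1))) =
      1 - family (wl τ) 1 t 0 := by
  rw [family_first τ hτ]
  have h1 : Fin.last (m + 1) ≠ 0 := by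
    intro h
    have := congrArg Fin.val h
    simp at this
  have h2 : vl τ (Fin.last (m + 1)) = 1 := by
    have h0 : ∑ x : Fin (m + 1), (if (x : ℕ) + (m + 1) < m + 1 then τ x else 0) = 0 := by
      refine Finset.sum_eq_zero fun x _ => ?_
      rw [if_neg (by omega)]
    simp only [vl, Fin.val_last, h0]
    simp
  have h3 : vl τ 0 = max (1 - ∑ i, τ i) 0 := by
    simp only [vl, Fin.val_zero, add_zero]
    congr 2
    refine Finset.sum_congr rfl fun i _ => ?_
    rw [if_pos (by omega)]
  simp only [family, Fin.snoc_castSucc, if_neg h1, post_wl τ hτ, h2, h3]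

lemma pos_of_point {m : ℕ} (x : ℝ) (hx : (1 / 2 : ℝ≥0∞) ≤ nu m {x})
    (A : Set ((Fin (m + 2) → ℝ) × ℝ × ℝ)) (hA : MeasurableSet A)
    (h : ∀ t, (wl (fun _ : Fin (m + 1) => x), (1 : ℝ), t) ∈ A) :
    0 < ((stat m).prod ((Measure.dirac (1 : ℝ)).prod (nu m))) A := by
  rw [joint_law, Measure.map_apply (measurable_emb m) hA]
  have h1 : ({fun _ : Fin (m + 1) => x} : Set (Fin (m + 1) → ℝ)) ×ˢ (Set.univ : Set ℝ) ⊆
      (fun p : (Fin (m + 1) → ℝ) × ℝ => (wl p.1, (1 : ℝ), p.2)) ⁻¹' A := by
    rintro ⟨τ, t⟩ ⟨hτ, -⟩
    simp only [Set.mem_singleton_iff] at hτ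
    subst hτ
    exact h t
  refine lt_of_lt_of_le ?_ (measure_mono h1)
  rw [Measure.prod_prod, measure_univ, mul_one, ← Set.univ_pi_singleton, Measure.pi_pi]
  simp only [Finset.prod_const, Finset.card_univ, Fintype.card_fin]
  refine ENNReal.pow_pos (lt_of_lt_of_le ?_ hx) _
  simp

/-- **Theorem.** For every number `k ≥ 2` of servers there are nonnegative bounded service and
interarrival times with `ρ < 1`, and a stationary law `π` of the workload vector, which is the law
of the workload vector seen by customer `n` in the initially empty system for every `n ≥ k - 1`,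
such that the family `V₁, V₂ - V₁, …, Vₖ - V₁, -T` is not associated. -/
theorem result (k : ℕ) [NeZero k] (hk : 2 ≤ k) : ∃ μS μT : Measure ℝ,
    IsProbabilityMeasure μS ∧ IsProbabilityMeasure μT ∧
    (∀ᵐ s ∂μS, s = 1) ∧ (∀ᵐ t ∂μT, 0 ≤ t ∧ t ≤ 1) ∧
    0 < ∫ t, t ∂μT ∧ (∫ s, s ∂μS) / (k * ∫ t, t ∂μT) < 1 ∧
    ∃ π : Measure (Fin k → ℝ), IsProbabilityMeasure π ∧ nextLaw μS μT π = π ∧
      (∀ n, k ≤ n + 1 → lawFromEmpty k μS μT n = π) ∧
      ¬ Associated (π.prod (μS.prod μT)) (fun p => family p.1 p.2.1 p.2.2) := by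
  obtain ⟨m, rfl⟩ : ∃ m, k = m + 2 := ⟨k - 2, by omega⟩
  have hm : (0 : ℝ) ≤ m := Nat.cast_nonneg m
  have hET : ∫ t, t ∂(nu m) = (pa m + pb m) / 2 := by
    unfold nu
    rw [integral_add_measure, integral_smul_measure, integral_smul_measure, integral_dirac,
      integral_dirac]
    · simp only [one_div, ENNReal.toReal_inv, ENNReal.toReal_ofNat, smul_eq_mul]
      ring
    · exact (integrable_dirac (by simp)).smul_measure (by simp)
    · exact (integrable_dirac (by simp)).smul_measure (by simp)
  have hapos : 0 < pa m := by unfold pa; positivity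
  have hbpos : 0 < pb m := by unfold pb; positivity
  refine ⟨Measure.dirac 1, nu m, inferInstance, inferInstance, ?_, ?_, ?_, ?_, stat m, ?_,
    stat_stationary m, ?_, ?_⟩
  · have h1 : MeasurableSet {s : ℝ | s = 1} := by
      rw [Set.ofPred_eq_eq_singleton]
      exact MeasurableSet.singleton _
    exact (ae_dirac_iff (p := fun s : ℝ => s = 1) h1).2 rfl
  · unfold nu
    have hms : MeasurableSet {t : ℝ | 0 ≤ t ∧ t ≤ 1} := measurableSet_Icc
    rw [ae_add_measure_iff]
    constructor
    · apply Measure.ae_smul_measure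
      rw [ae_dirac_iff hms]
      refine ⟨hapos.le, ?_⟩
      unfold pa
      rw [div_le_one (by positivity)]
      linarith
    · apply Measure.ae_smul_measure
      rw [ae_dirac_iff hms]
      refine ⟨hbpos.le, ?_⟩
      unfold pb
      rw [div_le_one (by positivity)]
      linarith
  · rw [hET]
    linarith
  · rw [hET, integral_dirac, div_lt_one (by positivity)]
    push_cast
    have h1 := good_pa m
    have h2 := pa_lt_pb m
    nlinarith
  · exact Measure.isProbabilityMeasure_map measurable_wl.aemeasurable
  · intro n hn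
    rw [lawFromEmpty_eq, mus_const m n (by omega)]
    rfl
  · intro h
    set P := (stat m).prod ((Measure.dirac (1 : ℝ)).prod (nu m)) with hP
    have hPprob : IsProbabilityMeasure (stat m) :=
      Measure.isProbabilityMeasure_map measurable_wl.aemeasurable
    have hPprob' : IsProbabilityMeasure P := by
      rw [hP]
      infer_instance
    set a : Fin (m + 3) := Fin.castSucc (Fin.last (m + 1)) with ha
    have hA : MeasurableSet {x : Fin (m + 3) → ℝ | 0 < x 0} :=
      measurableSet_lt measurable_const (measurable_pi_apply 0)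
    have hB : MeasurableSet {x : Fin (m + 3) → ℝ | 1 ≤ x a} :=
      measurableSet_le measurable_const (measurable_pi_apply a)
    have h1 := h (Set.indicator {x | 0 < x 0} 1) (Set.indicator {x | 1 ≤ x a} 1) ?_ ?_ ?_ ?_
      ⟨1, ?_⟩ ⟨1, ?_⟩
    · have hfam := measurable_family (m + 2)
      have e1 : ∫ ω, (Set.indicator {x : Fin (m + 3) → ℝ | 0 < x 0} (1 : (Fin (m + 3) → ℝ) → ℝ))
          (family ω.1 ω.2.1 ω.2.2) ∂P = P.real {ω | 0 < family ω.1 ω.2.1 ω.2.2 0} := by
        exact integral_indicator_one (μ := P) (hfam hA)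
      have e2 : ∫ ω, (Set.indicator {x : Fin (m + 3) → ℝ | 1 ≤ x a} (1 : (Fin (m + 3) → ℝ) → ℝ))
          (family ω.1 ω.2.1 ω.2.2) ∂P = P.real {ω | 1 ≤ family ω.1 ω.2.1 ω.2.2 a} := by
        exact integral_indicator_one (μ := P) (hfam hB)
      have e3 : ∫ ω, (Set.indicator {x : Fin (m + 3) → ℝ | 0 < x 0} (1 : (Fin (m + 3) → ℝ) → ℝ))
          (family ω.1 ω.2.1 ω.2.2) * (Set.indicator {x : Fin (m + 3) → ℝ | 1 ≤ x a} (1 : (Fin (m + 3) → ℝ) → ℝ))
          (family ω.1 ω.2.1 ω.2.2) ∂P = 0 := by
        apply integral_eq_zero_of_ae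
        have h5 : ∀ᵐ p ∂((Measure.pi (fun _ : Fin (m + 1) => nu m)).prod (nu m)),
            ∀ i, 1 ≤ (m + 2 : ℝ) * p.1 i := by
          apply (Measure.quasiMeasurePreserving_fst
            (μ := Measure.pi (fun _ : Fin (m + 1) => nu m)) (ν := nu m)).ae
            (p := fun τ => ∀ i, 1 ≤ (m + 2 : ℝ) * τ i)
          rw [ae_all_iff]
          intro i
          exact (Measure.quasiMeasurePreserving_eval (fun _ : Fin (m + 1) => nu m) i).ae
            (good_nu m)
        have h6 : ∀ᵐ ω ∂P, family ω.1 ω.2.1 ω.2.2 a = 1 - family ω.1 ω.2.1 ω.2.2 0 := by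
          rw [hP, joint_law]
          refine (ae_map_iff (p := fun ω : (Fin (m + 2) → ℝ) × ℝ × ℝ =>
            family ω.1 ω.2.1 ω.2.2 a = 1 - family ω.1 ω.2.1 ω.2.2 0)
            (measurable_emb m).aemeasurable
            (measurableSet_eq_fun ((measurable_pi_apply a).comp hfam)
              (((measurable_pi_apply 0).comp hfam).const_sub 1))).2 ?_
          filter_upwards [h5] with p hp
          refine family_last p.1 (fun i => ?_) p.2
          have := hp i
          by_contra hc
          push Not at hc
          nlinarith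
        filter_upwards [h6] with ω hω
        simp only [Set.indicator, Set.mem_ofPred_eq, Pi.one_apply, Pi.zero_apply]
        rw [hω]
        split_ifs with c1 c2
        · linarith
        · simp
        · simp
        · simp
      rw [e1, e2, e3] at h1
      have p1 : 0 < P.real {ω | 0 < family ω.1 ω.2.1 ω.2.2 0} := by
        rw [measureReal_def]
        refine ENNReal.toReal_pos (ne_of_gt ?_) (measure_ne_top _ _)
        refine pos_of_point (pa m) (nu_pa m) _ (hfam hA) fun t => ?_
        show 0 < family (wl fun _ => pa m) 1 t 0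
        rw [family_first _ (fun _ => hapos.le)]
        apply lt_max_of_lt_left
        simp only [Finset.sum_const, Finset.card_univ, Fintype.card_fin, nsmul_eq_mul]
        unfold pa
        push_cast
        rw [sub_pos, mul_div_assoc', div_lt_one (by positivity)]
        linarith
      have p2 : 0 < P.real {ω | 1 ≤ family ω.1 ω.2.1 ω.2.2 a} := by
        rw [measureReal_def]
        refine ENNReal.toReal_pos (ne_of_gt ?_) (measure_ne_top _ _)
        refine pos_of_point (pb m) (nu_pb m) _ (hfam hB) fun t => ?_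
        show 1 ≤ family (wl fun _ => pb m) 1 t a
        rw [ha, family_last _ (fun _ => hbpos.le), family_first _ (fun _ => hbpos.le)]
        simp only [Finset.sum_const, Finset.card_univ, Fintype.card_fin, nsmul_eq_mul]
        have : ((m + 1 : ℕ) : ℝ) * pb m = 1 := by
          unfold pb
          push_cast
          field_simp
        rw [this]
        simp
      have := mul_pos p1 p2
      linarith
    · intro x y hxy
      simp only [Set.indicator, Set.mem_ofPred_eq, Pi.one_apply]
      have := hxy 0
      split_ifs with c1 c2 c2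
      · exact le_rfl
      · linarith
      · norm_num
      · exact le_rfl
    · intro x y hxy
      simp only [Set.indicator, Set.mem_ofPred_eq, Pi.one_apply]
      have := hxy a
      split_ifs with c1 c2 c2
      · exact le_rfl
      · linarith
      · norm_num
      · exact le_rfl
    · exact measurable_one.indicator hA
    · exact measurable_one.indicator hB
    · intro x
      simp only [Set.indicator]
      split_ifs <;> simp
    · intro x
      simp only [Set.indicator]
      split_ifs <;> simp

end Pool.Agent.Results.MP_d464c7_pr.NotAssociated
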